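import Pool.Agent.Lib.MP_9701dc_gt.DD.Torsion

set_option autoImplicit false

/-!
# Sharp asymptotics of the maximal torsion as the dimension grows

`log T(n,d) = (1/2) * binom (n-1) d * (log (d+1) - 1 + o(1))`, uniformly in `n ≥ A d log d`, and the
growth constants `λ_d = lim log T(n,d) / n^d` satisfy `2 d! λ_d - log (d+1) → -1`.

Proof of the upper bound: let `B` be the boundary matrix of a column basis, with weighted rows.
The energy of the rows of `B` in the metric of the resolvent of `BᵀB` is compared with the energy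
of the same function after one more vertex has been created in a second (exterior algebra)
variable; this gives, up to errors of relative size `1/d`, the inequality `h g (1 + g) ≥ 1` for the
Stieltjes transform `g`, which is the equation of the Marchenko-Pastur law of ratio one.
-/

namespace Pool.Agent.Results.MP_9701dc_gt.SharpAsymptotics

open Filter Topology Pool.Agent.Results.MP_9701dc_gt.TorsionBound

/-- `t` is the order of the torsion subgroup of `H_{d-1}(X; ℤ)` (the set of its elements of finite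
order) for some `d`-dimensional simplicial complex `X` on `n` vertices (the largest face of `X`
has `d + 1` vertices). -/
def IsTorsionOrder (n d t : ℕ) : Prop :=
  ∃ X : Finset (Finset (Fin n)), IsComplex X ∧ (∃ σ ∈ X, σ.card = d + 1) ∧
    (∀ σ ∈ X, σ.card ≤ d + 1) ∧ {h : Homology X (d - 1) | IsOfFinAddOrder h}.Finite ∧
    t = {h : Homology X (d - 1) | IsOfFinAddOrder h}.ncard

/-- `T(n,d)`, the largest order of the torsion subgroup of `H_{d-1}(X; ℤ)` over the
`d`-dimensional simplicial complexes `X` on `n` vertices. -/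
noncomputable def T (n d : ℕ) : ℕ := sSup {t : ℕ | IsTorsionOrder n d t}

open Pool.Agent.Lib.MP_9701dc_gt Pool.Agent.Lib.MP_9701dc_gt.GR in
theorem T_eq {n d : ℕ} (hd : 2 ≤ d) : T n d = Tmax n d := by
  unfold T Tmax
  congr 1
  ext t
  constructor
  · rintro ⟨X, h1, h2, h3, _, h5⟩
    exact ⟨X, h1, ⟨h2, h3⟩, h5⟩
  · rintro ⟨X, h1, ⟨h2, h3⟩, h5⟩
    exact ⟨X, h1, h2, h3, (TorsionBound.result n d hd X h1).1, h5⟩

/-- Let `T(n,d)` be the maximal torsion (it is attained for `n ≥ d + 1`).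
1. For every `ε > 0` there are `d₀` and `A` such that for all `d ≥ d₀`:
   `T(n,d)^2 ≤ exp (binom (n-1) d * (log (d+1) - 1 + ε))` for all `n`, and
   `T(n,d)^2 ≥ exp (binom (n-1) d * (log (d+1) - 1 - ε))` for all `n ≥ A d log d`.
2. There are `λ_d`, `d ≥ 2`, such that `log T(n,d) / n^d → λ_d` as `n → ∞`,
   `log T(n,d) ≤ λ_d n^d` for all `n`, `(log (d+1) - 1) / (2 d!) ≤ λ_d`,
   `λ_d ≤ log ((4/27) (d+1)^5) / (10 d!)`, and `2 d! λ_d - log (d+1) → -1` as `d → ∞`. -/
theorem result :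
    (∀ n d : ℕ, 2 ≤ d → d + 1 ≤ n → IsGreatest {t : ℕ | IsTorsionOrder n d t} (T n d)) ∧
    (∀ ε : ℝ, 0 < ε → ∃ (d₀ : ℕ) (A : ℝ), ∀ d ≥ d₀, ∀ n : ℕ,
      2 * Real.log (T n d) ≤ ((n - 1).choose d : ℝ) * (Real.log (d + 1) - 1 + ε) ∧
      (A * d * Real.log d ≤ n →
        ((n - 1).choose d : ℝ) * (Real.log (d + 1) - 1 - ε) ≤ 2 * Real.log (T n d))) ∧
    ∃ lam : ℕ → ℝ, (∀ d, 2 ≤ d →
      Tendsto (fun n : ℕ => Real.log (T n d) / (n : ℝ) ^ d) atTop (𝓝 (lam d)) ∧
        (∀ n : ℕ, Real.log (T n d) ≤ lam d * (n : ℝ) ^ d) ∧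
        (Real.log (d + 1) - 1) / (2 * d.factorial) ≤ lam d ∧
        lam d ≤ Real.log ((4 / 27 : ℝ) * (d + 1) ^ 5) / (10 * d.factorial)) ∧
      Tendsto (fun d : ℕ => 2 * d.factorial * lam d - Real.log (d + 1)) atTop (𝓝 (-1)) := by
  refine ⟨fun n d hd hn => ?_, fun ε hε => ?_, ?_⟩
  · rw [T_eq hd]
    obtain ⟨X, h1, ⟨h2, h3⟩, h4⟩ := Lib.MP_9701dc_gt.GR.Tmax_attained hn
    refine ⟨⟨X, h1, h2, h3, (TorsionBound.result n d hd X h1).1, h4⟩, ?_⟩
    rintro t ⟨Y, k1, k2, k3, _, rfl⟩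
    exact Lib.MP_9701dc_gt.GR.le_Tmax k1 ⟨k2, k3⟩
  · obtain ⟨d₁, h1⟩ := Lib.MP_9701dc_gt.DD.upper ε hε
    obtain ⟨d₂, A, h2⟩ := Lib.MP_9701dc_gt.DD.lower' ε hε
    refine ⟨max (max d₁ d₂) 2, A, fun d hd n => ?_⟩
    have e1 : d₁ ≤ d := ((le_max_left _ _).trans (le_max_left _ _)).trans hd
    have e2 : d₂ ≤ d := ((le_max_right _ _).trans (le_max_left _ _)).trans hd
    have e3 : 2 ≤ d := (le_max_right _ _).trans hd
    rw [T_eq e3]
    exact ⟨h1 d e1 n, h2 d e2 n⟩
  · obtain ⟨lam, h1, h2⟩ := Lib.MP_9701dc_gt.DD.constants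
    refine ⟨lam, fun d hd => ?_, h2⟩
    have h3 := h1 d hd
    simpa only [T_eq hd] using h3

end Pool.Agent.Results.MP_9701dc_gt.SharpAsymptotics
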